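import Pool.Agent.Helper66.PU.Defs
import Pool.Agent.Helper90.MT.Common
import Pool.Agent.Helper83.MT.Comb
import Pool.Agent.Helper83.MT.Ana

/-!
# Project PU, module W: the size of the sieve weight, with `φ(W) / W`
-/

set_option autoImplicit false

open Finset

namespace Pool.Agent.Helper96.PU

open Pool.Agent.Helper1.MT
open Pool.Agent.Helper66.PV

private theorem wp_nonneg (R W : ℕ) (p : PS R W) : 0 ≤ wp R W p := by
  unfold wp
  positivity

private theorem PS_prime {R W : ℕ} (p : PS R W) : (p : ℕ).Prime ∧ ¬ (p : ℕ) ∣ W := by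
  have h4 := p.2
  unfold PS at h4
  exact (Finset.mem_filter.1 h4).2

/-- The prime divisors of `m` among the primes of the sieve. -/
private theorem card_div_le (R W m r : ℕ) (hm : m ≠ 0) (hr : oW W m ≤ r) :
    ((univ : Finset (PS R W)).filter (fun p : PS R W => (p : ℕ) ∣ m)).card ≤ r := by
  refine le_trans ?_ hr
  have h1 : (((univ : Finset (PS R W)).filter (fun p : PS R W => (p : ℕ) ∣ m)).image
      (fun p : PS R W => (p : ℕ))) ⊆ m.primeFactors.filter (fun p => ¬ p ∣ W) := by
    intro q hq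
    obtain ⟨p, hp, rfl⟩ := Finset.mem_image.1 hq
    have h2 := (Finset.mem_filter.1 hp).2
    exact Finset.mem_filter.2 ⟨Nat.mem_primeFactors.2 ⟨(PS_prime p).1, h2, hm⟩, (PS_prime p).2⟩
  have h2 : (m.primeFactors.filter (fun p => ¬ p ∣ W)).card ≤ oW W m := by
    unfold oW
    rw [Finset.card_eq_sum_ones]
    refine Finset.sum_le_sum fun p hp => ?_
    have h3 := Nat.mem_primeFactors.1 (Finset.mem_filter.1 hp).1
    exact (h3.1.dvd_iff_one_le_factorization hm).1 h3.2.1
  refine le_trans ?_ h2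
  refine le_trans (le_of_eq ?_) (Finset.card_le_card h1)
  rw [Finset.card_image_of_injective _ Subtype.val_injective]

/-- The number of colourings that are compatible with `n`. -/
private theorem card_Dv_le {κ : Type} [Fintype κ] [DecidableEq κ] (R W : ℕ) (h : κ → ℕ)
    (n r : ℕ) (hn : 0 < n) (hr : ∀ i, oW W (n + h i) ≤ r)
    (s : Finset (PS R W → Option κ)) (hs : ∀ c ∈ s, Dv h c n) :
    s.card ≤ 2 ^ (Fintype.card κ * r) := by
  classical
  have h1 : s.image (fun c : PS R W → Option κ => fun i : κ => cls c i) ⊆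
      Fintype.piFinset (fun i : κ =>
        ((univ : Finset (PS R W)).filter (fun p : PS R W => (p : ℕ) ∣ n + h i)).powerset) := by
    intro f hf
    obtain ⟨c, hc, rfl⟩ := Finset.mem_image.1 hf
    rw [Fintype.mem_piFinset]
    intro i
    rw [Finset.mem_powerset]
    intro p hp
    rw [Finset.mem_filter]
    exact ⟨Finset.mem_univ _, hs c hc p i (Pool.Agent.Helper90.MT.mem_cls.1 hp)⟩
  have h2 : s.card = (s.image (fun c : PS R W → Option κ => fun i : κ => cls c i)).card :=
    (Finset.card_image_of_injective _ Pool.Agent.Helper90.MT.cls_inj).symm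
  rw [h2]
  refine le_trans (Finset.card_le_card h1) ?_
  rw [Fintype.card_piFinset]
  calc ∏ i : κ, (((univ : Finset (PS R W)).filter (fun p : PS R W => (p : ℕ) ∣ n + h i)).powerset).card
      ≤ ∏ _i : κ, 2 ^ r := by
        refine Finset.prod_le_prod' fun i _ => ?_
        rw [Finset.card_powerset]
        exact Nat.pow_le_pow_right (by norm_num) (card_div_le R W (n + h i) r (by omega) (hr i))
    _ = 2 ^ (Fintype.card κ * r) := by
        rw [Finset.prod_const, Finset.card_univ, ← pow_mul, mul_comm]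

/-- `exp(-∑_{p ∣ W} 1/p)` is at most a constant times `φ(W)/W`. -/
private theorem exp_neg_sum_le : ∃ C : ℝ, 0 < C ∧ ∀ W : ℕ, 0 < W →
    Real.exp (-∑ p ∈ W.primeFactors, (1 : ℝ) / p) ≤ C * ((W.totient : ℝ) / W) := by
  obtain ⟨C₂, hC₂, hS⟩ := Pool.Agent.Helper44.sum_inv_sq_le
  refine ⟨Real.exp (2 * C₂), Real.exp_pos _, ?_⟩
  intro W hW
  have hW0 : (0 : ℝ) < W := by exact_mod_cast hW
  have h1 : (W.totient : ℝ) / W = ∏ p ∈ W.primeFactors, (1 - (1 : ℝ) / p) := by
    have h2 := Nat.totient_eq_mul_prod_factors W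
    have h3 : (W.totient : ℝ) = W * ∏ p ∈ W.primeFactors, (1 - ((p : ℝ))⁻¹) := by
      have h4 := congrArg (fun q : ℚ => (q : ℝ)) h2
      push_cast at h4
      exact h4
    rw [h3, mul_div_assoc, mul_comm, div_mul_cancel₀ _ hW0.ne']
    exact Finset.prod_congr rfl fun p _ => by rw [one_div]
  have h5 : Real.exp (-∑ p ∈ W.primeFactors, ((1 : ℝ) / p + 2 * ((1 : ℝ) / p) ^ 2)) ≤
      (W.totient : ℝ) / W := by
    rw [h1, ← Finset.sum_neg_distrib, Real.exp_sum]
    refine Finset.prod_le_prod (fun p _ => (Real.exp_pos _).le) fun p hp => ?_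
    have hp2 : (2 : ℝ) ≤ p := by exact_mod_cast (Nat.mem_primeFactors.1 hp).1.two_le
    refine Pool.Agent.Helper44.one_sub_ge_exp' (by positivity) ?_
    rw [div_le_div_iff₀ (by linarith) (by norm_num)]
    linarith
  have h6 := hS W.primeFactors
  calc Real.exp (-∑ p ∈ W.primeFactors, (1 : ℝ) / p)
      ≤ Real.exp (2 * C₂ + -∑ p ∈ W.primeFactors, ((1 : ℝ) / p + 2 * ((1 : ℝ) / p) ^ 2)) := by
        apply Real.exp_le_exp.2
        rw [Finset.sum_add_distrib, ← Finset.mul_sum]
        linarith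
    _ = Real.exp (2 * C₂) *
        Real.exp (-∑ p ∈ W.primeFactors, ((1 : ℝ) / p + 2 * ((1 : ℝ) / p) ^ 2)) := Real.exp_add _ _
    _ ≤ _ := mul_le_mul_of_nonneg_left h5 (Real.exp_pos _).le

/-- The product of the `1 + K / p`, with `φ(W) / W`. -/
private theorem prod_boundW : ∃ C : ℝ, 0 < C ∧ ∀ (K W R : ℕ), 2 ≤ R → 0 < W → W ≤ R →
    ∏ p : PS R W, (1 + (K : ℝ) * wp R W p) ≤ (C * ((W.totient : ℝ) / W * Real.log R)) ^ K := by
  obtain ⟨C, hC, hM⟩ := Pool.Agent.Helper44.sum_primesUpTo_bounds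
  obtain ⟨C₁, hC₁, hE⟩ := exp_neg_sum_le
  refine ⟨Real.exp C * C₁, mul_pos (Real.exp_pos _) hC₁, ?_⟩
  intro K W R hR hW hWR
  have hR2 : (2 : ℝ) ≤ R := by exact_mod_cast hR
  have hlogR : 0 < Real.log R := Real.log_pos (by linarith)
  have h1 : ∑ p : PS R W, wp R W p ≤
      Real.log (Real.log R) + C - ∑ p ∈ W.primeFactors, (1 : ℝ) / p := by
    have h2 : ∑ p : PS R W, wp R W p = ∑ p ∈ PS R W, 1 / (p : ℝ) := by
      unfold wp
      rw [← Finset.sum_coe_sort (PS R W) (fun p : ℕ => 1 / (p : ℝ))]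
    have hdisj : Disjoint (PS R W) W.primeFactors := by
      rw [Finset.disjoint_left]
      intro p hp hp'
      unfold PS at hp
      exact (Finset.mem_filter.1 hp).2.2 (Nat.mem_primeFactors.1 hp').2.1
    have h3 : ∑ p ∈ PS R W, 1 / (p : ℝ) + ∑ p ∈ W.primeFactors, (1 : ℝ) / p ≤
        ∑ q ∈ Pool.Agent.Helper44.primesUpTo (R : ℝ), (1 : ℝ) / q := by
      rw [← Finset.sum_union hdisj]
      apply Finset.sum_le_sum_of_subset_of_nonneg
      · intro p hp
        rw [Pool.Agent.Helper44.mem_primesUpTo (by positivity)]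
        rcases Finset.mem_union.1 hp with hp | hp
        · unfold PS at hp
          rw [Finset.mem_filter, Finset.mem_range] at hp
          exact ⟨hp.2.1, by exact_mod_cast Nat.lt_succ_iff.1 hp.1⟩
        · have h4 := Nat.mem_primeFactors.1 hp
          exact ⟨h4.1, by exact_mod_cast (Nat.le_of_dvd hW h4.2.1).trans hWR⟩
      · intro p _ _
        positivity
    have h4 := (abs_le.1 (hM R hR2)).2
    rw [h2]
    linarith
  calc ∏ p : PS R W, (1 + (K : ℝ) * wp R W p)
      ≤ ∏ p : PS R W, Real.exp ((K : ℝ) * wp R W p) := by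
        apply Finset.prod_le_prod
        · intro p _
          unfold wp
          positivity
        · intro p _
          have := Real.add_one_le_exp ((K : ℝ) * wp R W p)
          linarith
    _ = Real.exp ((K : ℝ) * ∑ p : PS R W, wp R W p) := by
        rw [← Real.exp_sum, Finset.mul_sum]
    _ ≤ Real.exp ((K : ℝ) * (Real.log (Real.log R) + C +
          -∑ p ∈ W.primeFactors, (1 : ℝ) / p)) := by
        apply Real.exp_le_exp.2
        exact mul_le_mul_of_nonneg_left (by linarith) (Nat.cast_nonneg _)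
    _ = (Real.log R * Real.exp C * Real.exp (-∑ p ∈ W.primeFactors, (1 : ℝ) / p)) ^ K := by
        rw [Real.exp_nat_mul, Real.exp_add, Real.exp_add, Real.exp_log hlogR]
    _ ≤ (Real.log R * Real.exp C * (C₁ * ((W.totient : ℝ) / W))) ^ K := by
        refine pow_le_pow_left₀ (by positivity) ?_ K
        exact mul_le_mul_of_nonneg_left (hE W hW) (by positivity)
    _ = _ := by
        congr 1
        ring

theorem weightU : Pool.Agent.Helper66.PU.WeightU := by
  obtain ⟨C, hC, hP⟩ := prod_boundW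
  refine ⟨C, hC, ?_⟩
  intro κ _ _ R W h y n r hR hW hWR hy hn hr
  have hb : ∀ c : PS R W → Option κ, |lam (wp R W) y c| ≤
      (C * ((W.totient : ℝ) / W * Real.log R)) ^ Fintype.card κ :=
    fun c => (Pool.Agent.Helper83.MT.abs_lam_le (wp_nonneg R W) hy c).trans
      (hP (Fintype.card κ) W R (by omega) hW hWR)
  have hB : 0 ≤ (C * ((W.totient : ℝ) / W * Real.log R)) ^ Fintype.card κ :=
    (abs_nonneg _).trans (hb (fun _ => none))
  unfold sw
  classical
  rw [← sq_abs]
  refine pow_le_pow_left₀ (abs_nonneg _) ?_ 2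
  refine (Finset.abs_sum_le_sum_abs _ _).trans ?_
  refine (Finset.sum_le_card_nsmul _ _ _ fun c _ => hb c).trans ?_
  rw [nsmul_eq_mul]
  refine mul_le_mul_of_nonneg_right ?_ hB
  have h1 := card_Dv_le R W h n r hn hr
    (univ.filter (fun c : PS R W → Option κ => Dv h c n)) (fun c hc => (Finset.mem_filter.1 hc).2)
  refine le_trans (le_of_eq ?_) (show ((univ.filter
    (fun c : PS R W → Option κ => Dv h c n)).card : ℝ) ≤ 2 ^ (Fintype.card κ * r) by
      exact_mod_cast h1)
  congr

end Pool.Agent.Helper96.PU
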